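import Pool.Agent.TH641.CW.Defs

set_option autoImplicit false

/-! Final reduction: scaling to width one and the set of the eight directions. -/

open Pointwise

namespace Pool.Agent.TH883.CW

open Pool.Agent.TH641.CW

lemma frontier_smul₀' {c : ℝ} (hc : c ≠ 0) (s : Set E4) : frontier (c • s) = c • frontier s := by
  unfold frontier
  rw [interior_smul₀ hc, closure_smul₀' hc, Set.smul_set_sdiff₀ hc]

theorem reduction
    (H : ∀ K : Set E4, IsCompact K → K.Nonempty → DiamOne K →
      ∃ f : Fin 4 → E4, Orthonormal ℝ f ∧ ∀ q u, ¬ Bad K f q u)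
    (HA : ∀ K : Set E4, IsCompact K → Convex ℝ K → (interior K).Nonempty →
      (∀ u : E4, ‖u‖ = 1 → IsLUB {s : ℝ | ∃ x ∈ K, ∃ y ∈ K, s = inner ℝ u (x - y)} 1) →
      ∀ f : Fin 4 → E4, Orthonormal ℝ f → ∀ q ∈ frontier K,
      (∀ i, ∀ t : ℝ, 0 < t → q + t • f i ∉ interior K) →
      (∀ i, ∀ t : ℝ, 0 < t → q + t • (-(f i)) ∉ interior K) →
      DiamOne K ∧ ∃ u : Fin 4 → E4, Bad K f q u) :
    ∀ K : Set (EuclideanSpace ℝ (Fin 4)),
      IsCompact K → Convex ℝ K → (interior K).Nonempty →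
      (∃ w : ℝ, ∀ u : EuclideanSpace ℝ (Fin 4), ‖u‖ = 1 →
        IsLUB {s : ℝ | ∃ x ∈ K, ∃ y ∈ K, s = inner ℝ u (x - y)} w) →
      ∃ D : Finset (EuclideanSpace ℝ (Fin 4)), D.card ≤ 8 ∧
        ∀ x ∈ frontier K, ∃ d ∈ D, ∃ t : ℝ, 0 < t ∧ x + t • d ∈ interior K := by
  classical
  intro K hc hK hi ⟨w, hw⟩
  -- the width is positive
  have hw0 : 0 < w := by
    obtain ⟨x0, hx0⟩ := hi
    rw [mem_interior_iff_mem_nhds, Metric.mem_nhds_iff] at hx0
    obtain ⟨r, hr, hball⟩ := hx0
    set u : E4 := EuclideanSpace.single 0 1 with hu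
    have hun : ‖u‖ = 1 := by simp [hu]
    have hx0K : x0 ∈ K := hball (Metric.mem_ball_self hr)
    have hyK : x0 + (r / 2) • u ∈ K := by
      apply hball
      rw [Metric.mem_ball, dist_eq_norm, add_sub_cancel_left, norm_smul, hun, mul_one,
        Real.norm_eq_abs, abs_of_pos (by positivity)]
      linarith
    have h1 := (hw u hun).1 ⟨_, hyK, x0, hx0K, rfl⟩
    rw [add_sub_cancel_left, inner_smul_right, real_inner_self_eq_norm_sq, hun] at h1
    linarith
  have hwi : w⁻¹ ≠ 0 := inv_ne_zero hw0.ne'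
  set K' : Set E4 := w⁻¹ • K with hK'
  have hc' : IsCompact K' := hc.smul w⁻¹
  have hconv' : Convex ℝ K' := hK.smul w⁻¹
  have hint : interior K' = w⁻¹ • interior K := interior_smul₀ hwi K
  have hfr : frontier K' = w⁻¹ • frontier K := frontier_smul₀' hwi K
  have hi' : (interior K').Nonempty := by
    rw [hint]; exact hi.smul_set
  have hwid : ∀ u : E4, ‖u‖ = 1 →
      IsLUB {s : ℝ | ∃ x ∈ K', ∃ y ∈ K', s = inner ℝ u (x - y)} 1 := by
    intro u hu
    constructor
    · rintro s ⟨x, ⟨x0, hx0, rfl⟩, y, ⟨y0, hy0, rfl⟩, rfl⟩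
      have h1 := (hw u hu).1 ⟨x0, hx0, y0, hy0, rfl⟩
      change inner ℝ u (w⁻¹ • x0 - w⁻¹ • y0) ≤ 1
      rw [← smul_sub, inner_smul_right]
      rw [inv_mul_le_iff₀ hw0, mul_one]
      exact h1
    · intro b hb
      have h2 : w * b ∈ upperBounds {s : ℝ | ∃ x ∈ K, ∃ y ∈ K, s = inner ℝ u (x - y)} := by
        rintro s ⟨x, hx, y, hy, rfl⟩
        have h3 := hb ⟨w⁻¹ • x, Set.smul_mem_smul_set hx, w⁻¹ • y, Set.smul_mem_smul_set hy, rfl⟩
        rw [← smul_sub, inner_smul_right, inv_mul_le_iff₀ hw0] at h3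
        exact h3
      have h4 := (hw u hu).2 h2
      nlinarith
  have hdiam : DiamOne K' := by
    intro x hx y hy
    by_cases hxy : x - y = 0
    · rw [hxy, norm_zero]; norm_num
    · have hn : 0 < ‖x - y‖ := norm_pos_iff.2 hxy
      have hun : ‖(‖x - y‖⁻¹ • (x - y) : E4)‖ = 1 := by
        rw [norm_smul, norm_inv, norm_norm, inv_mul_cancel₀ hn.ne']
      have h1 := (hwid _ hun).1 ⟨x, hx, y, hy, rfl⟩
      rw [real_inner_smul_left, real_inner_self_eq_norm_sq] at h1
      have e : ‖x - y‖⁻¹ * ‖x - y‖ ^ 2 = ‖x - y‖ := by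
        field_simp
      rwa [e] at h1
  obtain ⟨f, hf, hbad⟩ := H K' hc' (hi'.mono interior_subset) hdiam
  refine ⟨Finset.univ.image f ∪ Finset.univ.image (fun i => -(f i)), ?_, ?_⟩
  · calc (Finset.univ.image f ∪ Finset.univ.image (fun i => -(f i))).card
        ≤ (Finset.univ.image f).card + (Finset.univ.image (fun i => -(f i))).card :=
          Finset.card_union_le _ _
      _ ≤ 4 + 4 := by
          apply add_le_add
          · exact Finset.card_image_le.trans (by simp)
          · exact Finset.card_image_le.trans (by simp)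
      _ = 8 := by norm_num
  · intro x hx
    by_contra hcon
    push Not at hcon
    have hq : w⁻¹ • x ∈ frontier K' := by
      rw [hfr]; exact Set.smul_mem_smul_set hx
    have hgen : ∀ d ∈ (Finset.univ.image f ∪ Finset.univ.image (fun i => -(f i))),
        ∀ t : ℝ, 0 < t → w⁻¹ • x + t • d ∉ interior K' := by
      intro d hd t ht hmem
      rw [hint] at hmem
      obtain ⟨z, hz, hz'⟩ := hmem
      have h1 := hcon d hd (w * t) (by positivity)
      apply h1
      have e : x + (w * t) • d = z := by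
        have h2 : w • (w⁻¹ • z) = w • (w⁻¹ • x + t • d) := by
          change w⁻¹ • z = _ at hz'
          rw [hz']
        rw [smul_smul, mul_inv_cancel₀ hw0.ne', one_smul, smul_add, smul_smul,
          mul_inv_cancel₀ hw0.ne', one_smul, smul_smul] at h2
        exact h2.symm
      rw [e]; exact hz
    obtain ⟨_, u, hu⟩ := HA K' hc' hconv' hi' hwid f hf _ hq
      (fun i t ht => hgen _ (Finset.mem_union_left _ (Finset.mem_image_of_mem _
        (Finset.mem_univ i))) t ht)
      (fun i t ht => hgen _ (Finset.mem_union_right _ (Finset.mem_image.2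
        ⟨i, Finset.mem_univ i, rfl⟩)) t ht)
    exact hbad _ u hu

end Pool.Agent.TH883.CW
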