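import Pool.Agent.TH641.CW.Defs

set_option autoImplicit false

/-! The sign lemma: the vectors of a bad point lie in one closed orthant. -/

namespace Pool.Agent.TH883.CW

open Pool.Agent.TH641.CW

/-- the statement on nine real numbers -/
lemma real_core (s t s' c12 c13 c21 c23 c31 c32 : ℝ) (hs : 0 < s) (ht : 0 < t) (hs' : 0 ≤ s')
    (n1 : s ^ 2 + c12 ^ 2 + c13 ^ 2 = 1) (n2 : t ^ 2 + c21 ^ 2 + c23 ^ 2 = 1)
    (n3 : s' ^ 2 + c31 ^ 2 + c32 ^ 2 = 1)
    (h12 : 1 / 2 ≤ -(s * t) + c13 * c23) (h23 : 1 / 2 ≤ -(t * s') + c21 * c31)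
    (h13 : 1 / 2 ≤ s * s' + c12 * c32) : False := by
  have a1 : 1 / 2 < c13 * c23 := by nlinarith [mul_pos hs ht]
  have a2 : 1 / 2 ≤ c21 * c31 := by nlinarith [mul_nonneg ht.le hs']
  have a3 : 1 / 4 < (c13 * c23) * (c21 * c31) := by nlinarith
  have a4 : |c21 * c23| < 1 / 2 := by
    rw [abs_lt]
    constructor <;> nlinarith [sq_nonneg (c21 - c23), sq_nonneg (c21 + c23), pow_pos ht 2]
  have a5 : 1 / 2 < |c13 * c31| := by
    by_contra hcon
    push Not at hcon
    have e : (c13 * c23) * (c21 * c31) = (c13 * c31) * (c21 * c23) := by ring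
    have h1 : (c13 * c31) * (c21 * c23) ≤ |c13 * c31| * |c21 * c23| := by
      rw [← abs_mul]; exact le_abs_self _
    have h2 : |c13 * c31| * |c21 * c23| ≤ 1 / 2 * |c21 * c23| :=
      mul_le_mul_of_nonneg_right hcon (abs_nonneg _)
    linarith
  set P := |c13 * c31| with hP
  have hP2 : P ^ 2 = c13 ^ 2 * c31 ^ 2 := by rw [hP, sq_abs]; ring
  have hP3 : 2 * P ≤ c13 ^ 2 + c31 ^ 2 := by
    rw [hP, abs_mul]
    nlinarith [sq_nonneg (|c13| - |c31|), sq_abs c13, sq_abs c31]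
  have hP4 : P ≤ 1 := by nlinarith [sq_nonneg s, sq_nonneg c12, sq_nonneg s', sq_nonneg c32]
  have h5 : (s * s' + c12 * c32) ^ 2 ≤ (s ^ 2 + c12 ^ 2) * (s' ^ 2 + c32 ^ 2) := by
    nlinarith [sq_nonneg (s * c32 - c12 * s')]
  have h6 : (s ^ 2 + c12 ^ 2) * (s' ^ 2 + c32 ^ 2) = (1 - c13 ^ 2) * (1 - c31 ^ 2) := by
    have e1 : s ^ 2 + c12 ^ 2 = 1 - c13 ^ 2 := by linarith
    have e2 : s' ^ 2 + c32 ^ 2 = 1 - c31 ^ 2 := by linarith
    rw [e1, e2]
  have h7 : (1 - c13 ^ 2) * (1 - c31 ^ 2) ≤ (1 - P) ^ 2 := by nlinarith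
  have h8 : (1 - P) ^ 2 < 1 / 4 := by nlinarith
  have h9 : 1 / 4 ≤ (s * s' + c12 * c32) ^ 2 := by nlinarith
  linarith

lemma sum4 (g : Fin 4 → ℝ) (k i j l : Fin 4) (h1 : k ≠ i) (h2 : k ≠ j) (h3 : k ≠ l)
    (h4 : i ≠ j) (h5 : i ≠ l) (h6 : j ≠ l) : ∑ m, g m = g k + g i + g j + g l := by
  have hu : (Finset.univ : Finset (Fin 4)) = {k, i, j, l} := by
    revert k i j l; decide
  rw [hu, Finset.sum_insert (by simp [h1, h2, h3]), Finset.sum_insert (by simp [h4, h5]),
    Finset.sum_insert (by simp [h6]), Finset.sum_singleton]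
  ring

lemma fourth (k i j : Fin 4) : ∃ l, l ≠ k ∧ l ≠ i ∧ l ≠ j := by
  revert k i j; decide

/-- the abstract sign lemma for a matrix -/
lemma matrix_core (c : Fin 4 → Fin 4 → ℝ) (h0 : ∀ i, c i i = 0) (h1 : ∀ i, ∑ k, c i k ^ 2 = 1)
    (h2 : ∀ i j, i ≠ j → 1 / 2 ≤ ∑ k, c i k * c j k) (k i j : Fin 4) (hi : 0 < c i k)
    (hj : c j k < 0) : False := by
  -- the case when the third number is nonnegative
  have key : ∀ (c : Fin 4 → Fin 4 → ℝ), (∀ i, c i i = 0) → (∀ i, ∑ k, c i k ^ 2 = 1) →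
      (∀ i j, i ≠ j → 1 / 2 ≤ ∑ k, c i k * c j k) → ∀ k i j l : Fin 4, l ≠ k → l ≠ i → l ≠ j →
      0 < c i k → c j k < 0 → 0 ≤ c l k → False := by
    intro c h0 h1 h2 k i j l hlk hli hlj hi hj hl
    have hik : k ≠ i := by rintro rfl; rw [h0] at hi; exact lt_irrefl _ hi
    have hjk : k ≠ j := by rintro rfl; rw [h0] at hj; exact lt_irrefl _ hj
    have hij : i ≠ j := by rintro rfl; linarith
    have s1 := h1 i
    have s2 := h1 j
    have s3 := h1 l
    have p12 := h2 i j hij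
    have p23 := h2 j l hlj.symm
    have p13 := h2 i l hli.symm
    rw [sum4 _ k i j l hik hjk hlk.symm hij hli.symm hlj.symm] at s1 s2 s3 p12 p23 p13
    simp only [h0] at s1 s2 s3 p12 p23 p13
    refine real_core (c i k) (-(c j k)) (c l k) (c i j) (c i l) (c j i) (c j l) (c l i) (c l j)
      hi (by linarith) hl (by linarith) (by nlinarith) (by linarith) (by linarith) (by linarith)
      (by linarith)
  obtain ⟨l, hlk, hli, hlj⟩ := fourth k i j
  rcases le_or_gt 0 (c l k) with hl | hl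
  · exact key c h0 h1 h2 k i j l hlk hli hlj hi hj hl
  · refine key (fun a b => -(c a b)) (fun i => by simp [h0]) (fun i => by simpa using h1 i)
      (fun i j hij => by simpa using h2 i j hij) k j i l hlk hlj hli (by simpa using hj)
      (by simpa using hi) (by simpa using hl.le)

theorem bad_hasType (K : Set E4) (hK : DiamOne K) (f : Fin 4 → E4) (hf : Orthonormal ℝ f)
    (q : E4) (u : Fin 4 → E4) (hb : Bad K f q u) :
    ∃ σ : Fin 4 → Bool, ∀ i k, 0 ≤ sg (σ k) * inner ℝ (u i) (f k) := by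
  classical
  have hcard : Fintype.card (Fin 4) = Module.finrank ℝ E4 := by simp
  let b0 := basisOfOrthonormalOfCardEqFinrank hf hcard
  have hb0 : (b0 : Fin 4 → E4) = f := coe_basisOfOrthonormalOfCardEqFinrank hf hcard
  let b : OrthonormalBasis (Fin 4) ℝ E4 := b0.toOrthonormalBasis (by rw [hb0]; exact hf)
  have hbf : ∀ k, b k = f k := by
    intro k
    have : (b : Fin 4 → E4) = b0 := Module.Basis.coe_toOrthonormalBasis _ _
    rw [this, hb0]
  have hin : ∀ x y : E4, ∑ k, inner ℝ x (f k) * inner ℝ y (f k) = (inner ℝ x y : ℝ) := by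
    intro x y
    have h := b.sum_inner_mul_inner x y
    rw [← h]
    apply Finset.sum_congr rfl
    intro k _
    rw [hbf, real_inner_comm y (f k)]
  set c : Fin 4 → Fin 4 → ℝ := fun i k => inner ℝ (u i) (f k) with hc
  have h0 : ∀ i, c i i = 0 := fun i => (hb.2 i).2.2
  have h1 : ∀ i, ∑ k, c i k ^ 2 = 1 := by
    intro i
    have h := hin (u i) (u i)
    rw [real_inner_self_eq_norm_sq, (hb.2 i).1, one_pow] at h
    rw [← h]
    apply Finset.sum_congr rfl
    intro k _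
    simp only [hc]
    ring
  have h2 : ∀ i j, i ≠ j → 1 / 2 ≤ ∑ k, c i k * c j k := by
    intro i j _
    have h := hin (u i) (u j)
    have hd : ‖(q - u i) - (q - u j)‖ ≤ 1 := hK _ (hb.2 i).2.1 _ (hb.2 j).2.1
    have e : (q - u i) - (q - u j) = u j - u i := by abel
    rw [e] at hd
    have h3 : ‖u j - u i‖ ^ 2 = ‖u j‖ ^ 2 - 2 * inner ℝ (u j) (u i) + ‖u i‖ ^ 2 :=
      norm_sub_sq_real _ _
    rw [(hb.2 i).1, (hb.2 j).1, real_inner_comm] at h3
    have h4 : ‖u j - u i‖ ^ 2 ≤ 1 := by nlinarith [norm_nonneg (u j - u i)]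
    have h5 : ∑ k, c i k * c j k = inner ℝ (u i) (u j) := h
    rw [h5]
    linarith
  refine ⟨fun k => if ∃ i, 0 < c i k then true else false, fun i k => ?_⟩
  by_cases hex : ∃ i, 0 < c i k
  · obtain ⟨i0, hi0⟩ := hex
    have : 0 ≤ c i k := by
      by_contra hcon
      push Not at hcon
      exact matrix_core c h0 h1 h2 k i0 i hi0 hcon
    have hex' : ∃ i, 0 < c i k := ⟨i0, hi0⟩
    beta_reduce
    rw [if_pos hex']
    simpa [sg] using this
  · beta_reduce
    rw [if_neg hex]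
    push Not at hex
    have := hex i
    simp only [hc] at this
    simp [sg]
    exact this

end Pool.Agent.TH883.CW
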